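import Mathlib
import Pool.Agent.Q47.TV.EtAcc

/-!
# The gap of minimal log discrepancies below one for quotients of toroidal pairs

`x` is a closed point of a complex affine variety `X`, `B` an effective `ℝ`-divisor with `K_X + B`
`ℝ`-Cartier at `x` (`B = 0` for the question of the problem), and `G` a finite group of automorphisms of
the germ `(X ∋ x, B)`, such that every `σ` in `G` has an étale toric chart (`EtGerm`): morphisms
`X ← U → X_σ`, étale at a closed point `u`, `u ↦ x` and `u ↦ y`, where `X_σ` is an affine toric variety of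
dimension `n` with a torus invariant boundary with coefficients in a DCC set and `y` any closed point of
it, under which the pairs correspond, and an automorphism of `U` which fixes `u` and lies over `σ` and
over a monomial automorphism of `X_σ`. The morphisms enter through properties of étale morphisms
(`IsEtale`). Different elements of `G` may need different charts; charts exist (not part of the formal
statement) for smooth `X`, for toroidal `X` and `G = 1`, and by Steinberg's theorem for projective toric
varieties and all finite groups of automorphisms.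

The minimal log discrepancy of the quotient is the least value of `a(E, X, B) / r_E` over the prime
divisors `E` over `X` with centre `x`, where `r_E` is the order of the inertia group of `E`
(`IsQuotMldX`). The set of these numbers satisfies the ascending chain condition (`quot_acc_et`),
therefore `1` is not a limit of smaller ones.
-/

set_option autoImplicit false

namespace Pool.Agent.Results.MP_21ca32_ag.ToroidalQuotients

open Pool.Agent.TH165.ACC Pool.Agent.W497.Mld Pool.Agent.H436R3.KT Pool.Agent.H436R3.Fol Q47.QM Q47.TV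

/-- For every `n` and every DCC set `Γ` there is a real number `0 < a < 1` such that every minimal log
discrepancy of a quotient as above of dimension `n` which is greater than `a` is at least `1`. -/
theorem result (n : ℕ) {Γ : Set ℝ} (hΓ : Pool.Agent.TH165.ACC.IsDCC Γ) :
    ∃ a : ℝ, 0 < a ∧ a < 1 ∧
      ∀ (L : Type) (_ : Field L) (_ : Algebra ℂ L) (X : AffVar L) (B : EffDiv X) (x : Pt X)
        (e : LocEq B x) (G : Subgroup (L ≃ₐ[ℂ] L)) (m : ℝ), Finite G →
        (∀ σ ∈ G, IsGermAut e σ) →
        (∀ σ ∈ G, Nonempty (EtGerm n (FractionRing (MvPolynomial (Fin n) ℂ)) Γ e σ)) →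
        IsQuotMldX e G m → a < m → 1 ≤ m := by
  classical
  have hacc := quot_acc_et (n := n) (K := FractionRing (MvPolynomial (Fin n) ℂ)) hΓ
  set S : Set ℝ := {m : ℝ | 0 ≤ m ∧ ∃ (L : Type) (_ : Field L) (_ : Algebra ℂ L) (X : AffVar L)
      (B : EffDiv X) (x : Pt X) (e : LocEq B x) (G : Subgroup (L ≃ₐ[ℂ] L)),
      Finite G ∧ (∀ σ ∈ G, IsGermAut e σ) ∧
      (∀ σ ∈ G, Nonempty (EtGerm n (FractionRing (MvPolynomial (Fin n) ℂ)) Γ e σ)) ∧
      IsQuotMldX e G m} with hS
  by_contra hcon
  push Not at hcon
  have hstep : ∀ a : ℝ, 0 < a → a < 1 → ∃ m ∈ S, a < m ∧ m < 1 := by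
    intro a ha0 ha1
    obtain ⟨L, i1, i2, X, B, x, e, G, m, h3, h4, h5, h6, h7, h8⟩ := hcon a ha0 ha1
    exact ⟨m, ⟨(ha0.trans h7).le, L, i1, i2, X, B, x, e, G, h3, h4, h5, h6⟩, h7, h8⟩
  obtain ⟨m0, hm0, h0a, h01⟩ := hstep (1 / 2) (by norm_num) (by norm_num)
  have hnext : ∀ x : {x : ℝ // x ∈ S ∧ 0 < x ∧ x < 1}, ∃ y : {x : ℝ // x ∈ S ∧ 0 < x ∧ x < 1},
      x.1 < y.1 := by
    rintro ⟨x, hx, hx0, hx1⟩
    obtain ⟨y, hy, h1, h2⟩ := hstep x hx0 hx1
    exact ⟨⟨y, hy, hx0.trans h1, h2⟩, h1⟩
  choose f hf using hnext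
  let u : ℕ → {x : ℝ // x ∈ S ∧ 0 < x ∧ x < 1} := fun k =>
    Nat.rec ⟨m0, hm0, by linarith, h01⟩ (fun _ x => f x) k
  have hu : StrictMono fun k => (u k).1 := strictMono_nat_of_lt_succ fun k => hf (u k)
  obtain ⟨N, hN⟩ := hacc (fun k => (u k).1) hu.monotone fun k => (u k).2.1
  have h1 := hN (N + 1) (Nat.le_succ N)
  exact (hu (Nat.lt_succ_self N)).ne' h1

end Pool.Agent.Results.MP_21ca32_ag.ToroidalQuotients
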